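import Pool.Agent.helper99.WN.SpecA

/-! # Project WN, row CN: a connected graph over a subgraph -/

set_option autoImplicit false

open Classical

namespace Pool.Agent.WN

/-- a path from inside to outside uses a crossing edge -/
theorem CN_cross {V : Type} {k : ℕ} (E : Gr V k) (Vp : Finset V) {a c : V} {g : Fr k}
    (h : PL (lf E) a c g) (ha : a ∈ Vp) (hc : c ∉ Vp) :
    ∃ e ∈ E, (e.1 ∈ Vp ∧ e.2.2 ∉ Vp) ∨ (e.1 ∉ Vp ∧ e.2.2 ∈ Vp) := by
  induction h with
  | nil => exact absurd ha hc
  | fwd h1 h2 ih =>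
    rename_i b c g x
    by_cases hb : b ∈ Vp
    · obtain ⟨e, he, h3⟩ := h2
      rw [Prod.mk.injEq, Prod.mk.injEq] at h3
      refine ⟨e, he, Or.inl ⟨?_, ?_⟩⟩
      · rw [← h3.1]; exact hb
      · rw [← h3.2.2]; exact hc
    · exact ih hb
  | bwd h1 h2 ih =>
    rename_i b c g x
    by_cases hb : b ∈ Vp
    · obtain ⟨e, he, h3⟩ := h2
      rw [Prod.mk.injEq, Prod.mk.injEq] at h3
      refine ⟨e, he, Or.inr ⟨?_, ?_⟩⟩
      · rw [← h3.1]; exact hc
      · rw [← h3.2.2]; exact hb
    · exact ih hb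

theorem CN_aux (V : Type) [Fintype V] (k : ℕ) (E : Gr V k) (hE : Conn E) :
    ∀ (n : ℕ) (Ep : Gr V k) (Vp : Finset V), Fintype.card V ≤ Vp.card + n → Ep ⊆ E →
    Vp.Nonempty → (∀ e ∈ Ep, e.1 ∈ Vp ∧ e.2.2 ∈ Vp) →
    Ep.card + Fintype.card V ≤ Vp.card + E.card := by
  intro n
  induction n with
  | zero =>
    intro Ep Vp hn hs _ _
    have h1 := Finset.card_le_card hs
    omega
  | succ n ih =>
    intro Ep Vp hn hs hne hp
    by_cases hV : ∃ c, c ∉ Vp
    · obtain ⟨c, hc⟩ := hV
      obtain ⟨a, ha⟩ := hne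
      obtain ⟨g, hg⟩ := hE a c
      obtain ⟨e, he, h3⟩ := CN_cross E Vp hg ha hc
      have heEp : e ∉ Ep := by
        intro h4
        have h5 := hp e h4
        rcases h3 with h3 | h3
        · exact h3.2 h5.2
        · exact h3.1 h5.1
      -- the new vertex
      have key : ∀ v : V, v ∉ Vp → (e.1 = v ∨ e.1 ∈ Vp) → (e.2.2 = v ∨ e.2.2 ∈ Vp) →
          Ep.card + Fintype.card V ≤ Vp.card + E.card := by
        intro v hv h6 h7
        have h8 := ih (insert e Ep) (insert v Vp)
          (by rw [Finset.card_insert_of_notMem hv]; omega)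
          (Finset.insert_subset he hs) ⟨v, Finset.mem_insert_self _ _⟩
          (by
            intro e' he'
            rcases Finset.mem_insert.1 he' with h9 | h9
            · subst h9
              exact ⟨Finset.mem_insert.2 h6, Finset.mem_insert.2 h7⟩
            · exact ⟨Finset.mem_insert_of_mem (hp e' h9).1, Finset.mem_insert_of_mem (hp e' h9).2⟩)
        rw [Finset.card_insert_of_notMem hv, Finset.card_insert_of_notMem heEp] at h8
        omega
      rcases h3 with h3 | h3
      · exact key e.2.2 h3.2 (Or.inr h3.1) (Or.inl rfl)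
      · exact key e.1 h3.1 (Or.inl rfl) (Or.inr h3.2)
    · have h9 : Vp = Finset.univ := by
        apply Finset.eq_univ_iff_forall.2
        intro x
        by_contra hx
        exact hV ⟨x, hx⟩
      have h1 := Finset.card_le_card hs
      rw [h9, Finset.card_univ]
      omega

theorem CN : CN_stmt := by
  intro V _ k E Ep Vp hE hs hne hp
  exact CN_aux V k E hE (Fintype.card V) Ep Vp (by omega) hs hne hp

end Pool.Agent.WN
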